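import Pool.Agent.K9h84.PC.Main

/-!
# MP_a7a5c5_an, Q1 (answer: no)

Every super-reflexive normed space, of arbitrary density character, has simultaneous packing and
covering constant `< 2`.

Idea (non-separable case). For a regular uncountable cardinal `μ` below the density there is a
family of unit vectors with a `μ`-complete filter on the index set such that every functional
vanishes at eventually all of its vectors; if from the vectors `v` of a family one can form
`y + v/2 ± v'` (`y` fixed) with small norm for frequently many `v` and `v'`, one passes to this new
family. By uniform convexity of an equivalent norm this stops after boundedly many steps, and the
last family allows a transfinite greedy construction of the centres.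
-/

set_option autoImplicit false

namespace Pool.Agent.Results.MP_a7a5c5_an.SuperReflexiveAnyDensity

open Pool.Agent.R571.PC

universe u

/-- Let `X` be a real normed space whose completion has an equivalent uniformly convex norm. Then
`gamma X < 2`. -/
theorem result (X : Type u) [NormedAddCommGroup X] [NormedSpace ℝ X]
    (h : HasEquivUCNorm (UniformSpace.Completion X)) : gamma X < 2 :=
  Pool.Agent.K9h84.PC.gamma_lt_two_of_superreflexive X h

end Pool.Agent.Results.MP_a7a5c5_an.SuperReflexiveAnyDensity
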